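import Pool.Agent.W622.ETG.Stm

/-!
Project ELG (helper622), part NGF: in case B there are no bad blocks (helper919).
-/

set_option autoImplicit false

namespace Pool.Agent.W919.ELG

open Pool.Agent.W622.ETG Module

theorem t_NGF (hBDIS : S_BDIS) (hBNT : S_BNT) (hB1N : S_B1N) (hB1S : S_B1S)
    (hB2 : S_B2) (hB3E : S_B3E) (hB3S : S_B3S) : S_NGF := by
  intro V _ _ _ e A hA F hF
  have h2 := hB2 V e A hA
  -- good blocks have dimension one
  have h1 : ∀ X ∈ GB e A, finrank (ZMod 2) X = 1 := by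
    intro X hX
    have hne : X ≠ F := by
      rintro rfl
      exact hF.2 hX.2
    have hd : Disjoint X F := hBDIS V e A X F hA.mc hX hF.1 hne
    have h3 : finrank (ZMod 2) X + finrank (ZMod 2) F ≤ finrank (ZMod 2) (Dl V) :=
      Submodule.finrank_add_finrank_le_of_disjoint hd
    rw [finrank_Dl] at h3
    have h4 := h2 F hF
    have h5 : finrank (ZMod 2) X ≠ 0 := by
      intro h0
      exact (hBNT V e A X hA.mc hX.1).2 (Submodule.finrank_eq_zero.1 h0)
    omega
  have hbad : ∀ X, Block e A X → X ∉ GB e A → X ∈ BB e A := fun X hX hn =>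
    ⟨hX, fun hg => hn ⟨hX, hg⟩⟩
  by_cases h : ∃ X₁ ∈ GB e A, ∃ X₂ ∈ GB e A, X₁ ≠ X₂
  · obtain ⟨X₁, hX₁, X₂, hX₂, hne⟩ := h
    by_cases ht : sSup (GB e A) = ⊤
    · exact hB1S V e A F hA hF (h2 F hF) ht
    · exact hB1N V e A F X₁ X₂ hA hF (h2 F hF) hX₁ hX₂ hne ht
  · push Not at h
    by_cases hS : ∃ S, S ∈ GB e A
    · obtain ⟨S, hS⟩ := hS
      refine hB3S V e A S hA hS (h1 S hS) ⟨F, hF⟩ fun X hX hne => ?_
      have h6 : X ∈ BB e A := hbad X hX fun hg => hne (h X hg S hS)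
      exact ⟨h6, h2 X h6⟩
    · push Not at hS
      exact hB3E V e A hA fun X hX => h2 X (hbad X hX (hS X))

end Pool.Agent.W919.ELG
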